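import Pool.Agent.H80.JD.Basic

namespace Pool.Agent.H5.JD
open Finset Filter Topology Pool.Agent.H80.JD

lemma Phi_mono {a b : ℝ} (h : a ≤ b) : Φ a ≤ Φ b := by
  unfold Φ
  apply MeasureTheory.measureReal_mono
  · exact Set.Icc_subset_Icc (by linarith) h
  · exact MeasureTheory.measure_ne_top _ _

lemma u_pos {κ : ℝ} (h : 16 ≤ κ) : 0 < 6 * Real.log κ / κ ^ 2 := by
  have h1 : 0 < Real.log κ := Real.log_pos (by linarith)
  positivity

lemma u_lt {κ : ℝ} (h : 16 ≤ κ) : 6 * Real.log κ / κ ^ 2 < 1 := by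
  have h1 : Real.log κ ≤ κ - 1 := Real.log_le_sub_one_of_pos (by linarith)
  rw [div_lt_one (by positivity)]
  nlinarith

theorem lc1 (hCLT : T_CLT) (hGT : T_GT) : T_LC1 := by
  intro κ hκ
  have hu0 := u_pos hκ
  have hu1 := u_lt hκ
  refine ⟨hu0, hu1, 1 - Φ (κ / Real.sqrt (1 - 6 * Real.log κ / κ ^ 2)), ?_, ?_⟩
  · set u : ℝ := 6 * Real.log κ / κ ^ 2 with hu
    have hκ0 : 0 < κ := by linarith
    have hl : 0 < Real.log κ := Real.log_pos (by linarith)
    have hs : 0 < Real.sqrt (1 - u) := Real.sqrt_pos.mpr (by linarith)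
    have h1 : κ + 3 * Real.log κ / κ ≤ κ / Real.sqrt (1 - u) := by
      rw [le_div_iff₀ hs]
      have h2 : κ + 3 * Real.log κ / κ = κ * (1 + u / 2) := by
        rw [hu]; field_simp; ring
      rw [h2]
      have h3 : (1 + u / 2) * Real.sqrt (1 - u) ≤ 1 := by
        have h4 : ((1 + u / 2) * Real.sqrt (1 - u)) ^ 2 ≤ 1 := by
          rw [mul_pow, Real.sq_sqrt (by linarith)]
          nlinarith [sq_nonneg u, pow_pos hu0 3]
        nlinarith [mul_pos (show (0:ℝ) < 1 + u / 2 by linarith) hs]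
      nlinarith
    have h5 := hGT.1 κ (3 * Real.log κ / κ) hκ0.le (by positivity)
    have h6 : Real.exp (-(κ * (3 * Real.log κ / κ))) = 1 / κ ^ 3 := by
      have : κ * (3 * Real.log κ / κ) = 3 * Real.log κ := by field_simp
      rw [this, Real.exp_neg, show (3 : ℝ) * Real.log κ = ((3 : ℕ) : ℝ) * Real.log κ by norm_num,
        Real.exp_nat_mul, Real.exp_log hκ0, one_div]
    rw [h6] at h5
    have h7 := Phi_mono h1
    calc 1 - Φ (κ / Real.sqrt (1 - u)) ≤ 1 - Φ (κ + 3 * Real.log κ / κ) := by linarith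
      _ ≤ 1 / κ ^ 3 * (1 - Φ κ) := h5
      _ = (1 - Φ κ) / κ ^ 3 := by ring
  · set u : ℝ := 6 * Real.log κ / κ ^ 2 with hu
    have h1 : Tendsto (fun n : ℕ => ((n - ⌈u * n⌉₊ : ℕ) : ℝ) / n) atTop (𝓝 (1 - u)) := by
      have h2 : Tendsto (fun n : ℕ => 1 - (⌈u * n⌉₊ : ℝ) / n) atTop (𝓝 (1 - u)) := by
        refine tendsto_const_nhds.sub ?_
        have h3 := (tendsto_nat_ceil_mul_div_atTop (R := ℝ) hu0.le).comp
          (tendsto_natCast_atTop_atTop (R := ℝ))
        exact h3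
      refine h2.congr' ?_
      filter_upwards [eventually_gt_atTop 0] with n hn
      have hn' : (0 : ℝ) < n := by exact_mod_cast hn
      have h4 : ⌈u * n⌉₊ ≤ n := by
        apply Nat.ceil_le.mpr
        nlinarith
      rw [Nat.cast_sub h4, sub_div, div_self hn'.ne']
    have h5 := hCLT (fun n => n - ⌈u * n⌉₊) (1 - u) κ (by linarith) (by linarith) h1
    exact tendsto_const_nhds.sub h5

end Pool.Agent.H5.JD
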