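import Pool.Agent.H80.JD.Basic

namespace Pool.Agent.H5.JD
open Finset Filter Topology Pool.Agent.H80.JD

theorem lc2 : T_LC2 := by
  intro κ α p r₀ hκ hα hp hp1 hA hr
  have hκ0 : 0 < κ := by linarith
  have hAp : 0 < α * p := by positivity
  set A : ℝ := α * p with hAdef
  set l : ℝ := Real.log κ with hl
  have hl1 : 1 ≤ l := by
    rw [hl, Real.le_log_iff_exp_le hκ0]
    have := Real.exp_one_lt_d9
    linarith
  have hlk : l ≤ κ - 1 := Real.log_le_sub_one_of_pos hκ0
  set J : ℕ := ⌈6 / A⌉₊ with hJ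
  have hJ1 : 6 / A ≤ (J : ℝ) := Nat.le_ceil _
  have hJA : 6 ≤ (J : ℝ) * A := by
    rw [div_le_iff₀ hAp] at hJ1; exact hJ1
  have hJ2 : (J : ℝ) < 6 / A + 1 := Nat.ceil_lt_add_one (by positivity)
  have hA' : 144 * l ^ 2 / κ ^ 2 ≤ A := by
    have : 144 * (l / κ) ^ 2 = 144 * l ^ 2 / κ ^ 2 := by rw [div_pow]; ring
    rw [← this]; exact hA
  have hJ0 : (0 : ℝ) ≤ J := Nat.cast_nonneg _
  constructor
  · have hh : 6 * l / κ ^ 2 * Real.log (Real.exp 1 / (6 * l / κ ^ 2)) ≤ A / 12 := by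
      have h1 : Real.log (Real.exp 1 / (6 * l / κ ^ 2)) = 1 + 2 * l - Real.log 6 - Real.log l := by
        rw [Real.log_div (Real.exp_pos 1).ne' (by positivity),
          Real.log_div (by positivity) (by positivity), Real.log_mul (by norm_num) (by positivity),
          Real.log_exp, Real.log_pow]
        push_cast
        ring
      rw [h1]
      have h2 : 1 ≤ Real.log 6 := by
        rw [Real.le_log_iff_exp_le (by norm_num)]
        have := Real.exp_one_lt_d9
        linarith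
      have h3 : 0 ≤ Real.log l := Real.log_nonneg hl1
      have h4 : 6 * l / κ ^ 2 * (1 + 2 * l - Real.log 6 - Real.log l) ≤ 6 * l / κ ^ 2 * (2 * l) := by
        apply mul_le_mul_of_nonneg_left (by linarith) (by positivity)
      have h5 : 6 * l / κ ^ 2 * (2 * l) = (144 * l ^ 2 / κ ^ 2) / 12 := by ring
      linarith
    have h6 : α * Real.log (Real.exp (-((J : ℝ) + 1) * p / 2)) = -((J : ℝ) + 1) * A / 2 := by
      rw [Real.log_exp, hAdef]; ring
    rw [h6]
    have h7 : (J : ℝ) * (6 * l / κ ^ 2 * Real.log (Real.exp 1 / (6 * l / κ ^ 2))) ≤ J * (A / 12) :=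
      mul_le_mul_of_nonneg_left hh hJ0
    have h8 : Real.log 2 < 1 := by
      have := Real.log_two_lt_d9
      linarith
    nlinarith
  · have hJ3 : (J : ℝ) ≤ κ ^ 3 / 8 := by
      have h1 : 6 / A ≤ κ ^ 2 / 24 := by
        rw [div_le_div_iff₀ hAp (by norm_num)]
        have h2 : 144 * l ^ 2 ≤ A * κ ^ 2 := by
          rw [div_le_iff₀ (by positivity)] at hA'
          exact hA'
        nlinarith
      have h3 : κ ^ 2 / 24 + 1 ≤ κ ^ 3 / 8 := by nlinarith [pow_pos hκ0 2, pow_pos hκ0 3]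
      linarith
    have h4 : (J : ℝ) * (4 * r₀) ≤ p := by
      have h5 : (J : ℝ) * (4 * r₀) ≤ J * (4 * (2 * p / κ ^ 3)) := by
        apply mul_le_mul_of_nonneg_left _ hJ0
        linarith
      have h6 : (J : ℝ) * (4 * (2 * p / κ ^ 3)) ≤ κ ^ 3 / 8 * (4 * (2 * p / κ ^ 3)) := by
        apply mul_le_mul_of_nonneg_right hJ3 (by positivity)
      have h7 : κ ^ 3 / 8 * (4 * (2 * p / κ ^ 3)) = p := by field_simp; ring
      linarith
    have h8 : (1 : ℝ) - (J + 1) * p + (J + 1) * J / 2 * (4 * r₀) ≤ 1 - (J + 1) * p / 2 := by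
      have : ((J : ℝ) + 1) * J / 2 * (4 * r₀) = (J + 1) / 2 * (J * (4 * r₀)) := by ring
      rw [this]
      have h9 : ((J : ℝ) + 1) / 2 * (J * (4 * r₀)) ≤ (J + 1) / 2 * p :=
        mul_le_mul_of_nonneg_left h4 (by positivity)
      linarith
    have h10 : -((J : ℝ) + 1) * p / 2 ≠ 0 := by
      have : 0 < ((J : ℝ) + 1) * p / 2 := by positivity
      intro h
      linarith
    have h11 := Real.add_one_lt_exp h10
    linarith

end Pool.Agent.H5.JD
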