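import Pool.Agent.H80.JD.Basic

namespace Pool.Agent.H5.JD
open Finset Filter Topology Pool.Agent.H80.JD

lemma card_E {n : ℕ} (R : ℤ → Prop) (L : List (Fin n → Bool)) :
    ((E R L).card : ℝ) =
      (Nat.card {h : Fin n → Bool // ∀ D ∈ L ++ [zero n], R (ip h D)} : ℝ) := by
  classical
  have h1 : ∀ h : Fin n → Bool, (∀ D ∈ L ++ [zero n], R (ip h D)) ↔ h ∈ E R L := by
    intro h
    rw [mem_E]
    constructor
    · intro hh
      exact ⟨hh _ (by simp), fun D hD => hh D (by simp [hD])⟩
    · rintro ⟨h1, h2⟩ D hD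
      rw [List.mem_append, List.mem_singleton] at hD
      rcases hD with hD | hD
      · exact h2 D hD
      · rw [hD]; exact h1
  have h2 : {h : Fin n → Bool | ∀ D ∈ L ++ [zero n], R (ip h D)} = ((E R L : Finset _) : Set _) := by
    ext h
    exact h1 h
  have h3 : Nat.card {h : Fin n → Bool // ∀ D ∈ L ++ [zero n], R (ip h D)} = (E R L).card := by
    have := Nat.card_coe_set_eq {h : Fin n → Bool | ∀ D ∈ L ++ [zero n], R (ip h D)}
    rw [h2, Set.ncard_coe_finset, ← h2] at this
    exact this
  rw [h3]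

theorem rc (hBF : T_BF) (hVV : T_VV) (hV1 : T_V1) (hNCC : T_NCC) : T_RC := by
  intro n M J K hK L hL
  obtain ⟨hlen, hpair⟩ := (hNCC n M J).2 L hL
  have hlen2 : ((L ++ [zero n]).length : ℝ) = (J : ℝ) + 1 := by
    rw [List.length_append, hlen]; simp
  have hpos : (0 : ℝ) < 2 ^ n := by positivity
  constructor
  · rw [card_E, div_le_iff₀ hpos]
    have h := hBF n (RK K) (L ++ [zero n]) (1 - pr n K) (4 * (1 - pr (n - M) K)) ?_ ?_
    · rw [hlen2] at h
      refine h.trans (le_of_eq ?_)
      ring
    · intro D _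
      have h1 := (hV1 n D K hK).1
      rw [← h1]
      have h2 : ∀ h : Fin n → Bool, ¬ RK K (ip h D) ↔ K < |((ip h D : ℤ) : ℝ)| := by
        intro h; unfold RK; exact not_le
      simp only [h2]
      exact le_refl _
    · refine hpair.imp ?_
      rintro D D' ⟨h1, h2⟩
      have h3 := hVV n M D D' K h1 h2 hK
      have h2 : ∀ (h D : Fin n → Bool), ¬ RK K (ip h D) ↔ K < |((ip h D : ℤ) : ℝ)| := by
        intro h D; unfold RK; exact not_le
      simp only [h2]
      exact h3
  · rw [card_E, div_le_iff₀ hpos]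
    have h := hBF n (fun v => -K ≤ (v : ℝ)) (L ++ [zero n]) ((1 - pr n K) / 2)
      (4 * (1 - pr (n - M) K)) ?_ ?_
    · rw [hlen2] at h
      refine h.trans (le_of_eq ?_)
      ring
    · intro D _
      have h1 := (hV1 n D K hK).2
      rw [← h1]
      simp only [not_le]
      exact le_refl _
    · refine hpair.imp ?_
      rintro D D' ⟨h1, h2⟩
      have h3 := hVV n M D D' K h1 h2 hK
      refine le_trans ?_ h3
      simp only [not_le]
      have h4 : Nat.card {h : Fin n → Bool // ((ip h D : ℤ) : ℝ) < -K ∧ ((ip h D' : ℤ) : ℝ) < -K} ≤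
          Nat.card {h : Fin n → Bool // K < |((ip h D : ℤ) : ℝ)| ∧ K < |((ip h D' : ℤ) : ℝ)|} := by
        refine Nat.card_le_card_of_injective
          (fun h => ⟨h.1, ?_, ?_⟩) ?_
        · have := h.2.1
          rw [lt_abs]; right; linarith
        · have := h.2.2
          rw [lt_abs]; right; linarith
        · intro a b hab
          exact Subtype.ext (by simpa using congrArg Subtype.val hab)
      exact_mod_cast h4

end Pool.Agent.H5.JD
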